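import Pool.Agent.R229.MT.Stm
import Pool.Agent.R364.MS.G

/-!
# MT-N2 (helper359)

There is no operator with bounded support expansion between a set of Maharam type at most `κ` and
a set all of whose nonnull subsets have type greater than `κ`.
-/

set_option autoImplicit false
set_option linter.unusedVariables false

noncomputable section

namespace Pool.Agent.R359.MT

open MeasureTheory Filter Topology Set Pool.Agent.R229.MS Pool.Agent.R229.MT
open scoped InnerProductSpace ENNReal NNReal Cardinal

universe u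

/-- Intersection of a list of sets. -/
def EL {X : Type u} {F : Set (Set X)} : List F → Set X
  | [] => univ
  | A :: l => A.1 ∩ EL l

section EL

variable {X : Type u} {F : Set (Set X)}

lemma EL_append (l l' : List F) : EL (l ++ l') = EL l ∩ EL l' := by
  induction l with
  | nil => simp [EL]
  | cons A l ih => rw [List.cons_append, EL, EL, ih, inter_assoc]

lemma EL_meas [MeasurableSpace X] (hF : ∀ A ∈ F, MeasurableSet A) (l : List F) :
    MeasurableSet (EL l) := by
  induction l with
  | nil => exact MeasurableSet.univ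
  | cons A l ih => exact (hF A.1 A.2).inter ih

lemma EL_pi : IsPiSystem (range (EL : List F → Set X)) := by
  rintro _ ⟨l, rfl⟩ _ ⟨l', rfl⟩ _
  exact ⟨l ++ l', EL_append l l'⟩

lemma gen_le : MeasurableSpace.generateFrom F ≤
    MeasurableSpace.generateFrom (range (EL : List F → Set X)) := by
  refine MeasurableSpace.generateFrom_le fun A hA => ?_
  refine MeasurableSpace.measurableSet_generateFrom ⟨[⟨A, hA⟩], ?_⟩
  simp [EL]

end EL

variable {X : Type u} [m0 : MeasurableSpace X] {μ : Measure X}

lemma fin_restrict {C : Set X} (hCf : μ C ≠ ∞) : IsFiniteMeasure (μ.restrict C) :=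
  ⟨by rw [Measure.restrict_apply_univ]; exact lt_top_iff_ne_top.mpr hCf⟩

lemma int_restrict {C : Set X} (hCf : μ C ≠ ∞) (v : L2 μ) :
    Integrable (v : X → ℂ) (μ.restrict C) := by
  have := fin_restrict hCf
  exact ((Lp.memLp v).restrict C).integrable one_le_two

/-- A vector with vanishing integrals over the sets `C ∩ EL l` vanishes on `C`. -/
lemma pl {C : Set X} (hC : MeasurableSet C) (hCf : μ C ≠ ∞) {F : Set (Set X)}
    (hF : ∀ A ∈ F, MeasurableSet A)
    (hgen : ∀ D : Set X, MeasurableSet D →
      ∃ E : Set X, MeasurableSet[MeasurableSpace.generateFrom F] E ∧ D =ᵐ[μ.restrict C] E)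
    (v : L2 μ) (hv : ∀ l : List F, ∫ x in C ∩ EL l, (v : X → ℂ) x ∂μ = 0) :
    ∀ᵐ x ∂(μ.restrict C), (v : X → ℂ) x = 0 := by
  have hfin := fin_restrict hCf
  have hint := int_restrict hCf v
  have hEL : ∀ l : List F, MeasurableSet (EL l) := EL_meas hF
  have hres : ∀ S : Set X, MeasurableSet S →
      ∫ x in S, (v : X → ℂ) x ∂(μ.restrict C) = ∫ x in C ∩ S, (v : X → ℂ) x ∂μ := by
    intro S hS
    rw [Measure.restrict_restrict hS, inter_comm]
  have h0 : ∫ x, (v : X → ℂ) x ∂(μ.restrict C) = 0 := by
    have := hv []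
    rwa [EL, inter_univ] at this
  have hle : MeasurableSpace.generateFrom (range (EL : List F → Set X)) ≤ m0 := by
    refine MeasurableSpace.generateFrom_le ?_
    rintro _ ⟨l, rfl⟩
    exact hEL l
  have hall : ∀ E : Set X,
      MeasurableSet[MeasurableSpace.generateFrom (range (EL : List F → Set X))] E →
      ∫ x in E, (v : X → ℂ) x ∂(μ.restrict C) = 0 := by
    intro E hE
    induction E, hE using MeasurableSpace.induction_on_inter rfl EL_pi with
    | empty => simp
    | basic t ht =>
      obtain ⟨l, rfl⟩ := ht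
      rw [hres _ (hEL l)]
      exact hv l
    | compl t ht ih =>
      have h1 := integral_add_compl (hle _ ht) hint
      rw [ih, zero_add, h0] at h1
      exact h1
    | iUnion f hd hm ih =>
      rw [integral_iUnion (fun i => hle _ (hm i)) hd hint.integrableOn]
      simp [ih]
  refine hint.ae_eq_zero_of_forall_setIntegral_eq_zero ?_
  intro S hS _
  obtain ⟨E, hE, hSE⟩ := hgen S hS
  rw [setIntegral_congr_set hSE]
  exact hall E (gen_le E hE)

/-- Vectors with disjoint supports are orthogonal. -/
lemma orth {S : Set X} (hS : MeasurableSet S) {f g : L2 μ} (hf : Supp f S)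
    (hg : ∀ᵐ x ∂(μ.restrict S), (g : X → ℂ) x = 0) : ⟪f, g⟫_ℂ = 0 := by
  rw [L2.inner_def]
  refine integral_eq_zero_of_ae ?_
  rw [ae_restrict_iff' hS] at hg
  filter_upwards [hf, hg] with x h1 h2
  by_cases hx : x ∈ S
  · rw [h2 hx, inner_zero_right]; rfl
  · rw [h1 hx, inner_zero_left]; rfl

lemma inner_ind {S : Set X} (hS : MeasurableSet S) (hSf : μ S ≠ ∞) (v : L2 μ) :
    ⟪indicatorConstLp 2 hS hSf (1 : ℂ), v⟫_ℂ = ∫ x in S, (v : X → ℂ) x ∂μ :=
  L2.inner_indicatorConstLp_one hS hSf v

/-- The scaling identity for measurable functions and a set with constant conditional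
probability. -/
lemma scale {X : Type u} {m m0 : MeasurableSpace X} (hm : m ≤ m0) (ν : Measure X) [IsFiniteMeasure ν]
    (b : Set X) (hb : MeasurableSet b) (t : ℝ) (ht : 0 ≤ t)
    (hbt : ν[b.indicator (fun _ => (1 : ℝ)) | m] =ᵐ[ν] fun _ => t) :
    (∀ S : Set X, MeasurableSet[m] S → ν (S ∩ b) = ENNReal.ofReal t * ν S) ∧
    ∀ h : X → ℂ, Measurable[m] h → ∀ S : Set X, MeasurableSet[m] S →
      ∫ x in S ∩ b, h x ∂ν = t * ∫ x in S, h x ∂ν := by
  have h1 : ∀ S : Set X, MeasurableSet[m] S → ν (S ∩ b) = ENNReal.ofReal t * ν S := by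
    intro S hS
    have hi : Integrable (b.indicator (fun _ => (1 : ℝ))) ν :=
      (integrable_const (1 : ℝ)).indicator hb
    have h2 := setIntegral_condExp hm hi hS
    rw [setIntegral_congr_ae (g := fun _ => t) (hm S hS) (hbt.mono fun x hx _ => hx)] at h2
    rw [setIntegral_indicator hb, setIntegral_const, setIntegral_const] at h2
    simp only [smul_eq_mul, mul_one] at h2
    have h3 : (ν (S ∩ b)).toReal = (ENNReal.ofReal t * ν S).toReal := by
      rw [ENNReal.toReal_mul, ENNReal.toReal_ofReal ht, mul_comm]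
      exact h2.symm
    refine (ENNReal.toReal_eq_toReal_iff' (measure_ne_top _ _) ?_).mp h3
    exact ENNReal.mul_ne_top ENNReal.ofReal_ne_top (measure_ne_top _ _)
  refine ⟨h1, fun h hh S hS => ?_⟩
  have h4 : (ν.restrict b).trim hm = ENNReal.ofReal t • ν.trim hm := by
    refine @Measure.ext _ m _ _ fun S hS => ?_
    rw [trim_measurableSet_eq hm hS, Measure.smul_apply, trim_measurableSet_eq hm hS,
      Measure.restrict_apply (hm S hS), h1 S hS, smul_eq_mul]
  have h5 : ∫ x in S ∩ b, h x ∂ν = ∫ x in S, h x ∂(ν.restrict b) := by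
    rw [Measure.restrict_restrict (hm S hS)]
  have hhs : StronglyMeasurable[m] h := hh.stronglyMeasurable
  rw [h5, setIntegral_trim hm hhs hS, h4, Measure.restrict_smul, integral_smul_measure,
    ENNReal.toReal_ofReal ht, ← setIntegral_trim hm hhs hS]
  rfl

theorem n2 : StmtN2.{u} := by
  intro X m0 μ C D hC hCf hD hDf κ hκ hgenC hN a c hex f g hf hg
  obtain ⟨F, hF, hFκ, hgen⟩ := hgenC
  have hfinD := fin_restrict hDf
  have hEm : ∀ l : List F, MeasurableSet (EL l) := EL_meas hF
  have hCE : ∀ l : List F, MeasurableSet (C ∩ EL l) := fun l => hC.inter (hEm l)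
  have hCEf : ∀ l : List F, μ (C ∩ EL l) ≠ ∞ := fun l =>
    ne_top_of_le_ne_top hCf (measure_mono inter_subset_left)
  set e : List F → L2 μ := fun l => indicatorConstLp 2 (hCE l) (hCEf l) (1 : ℂ) with he
  set h : List F → L2 μ := fun l => a (e l) with hh
  -- the small sigma-algebra
  set F' : Set (Set X) := ⋃ l : List F,
    (fun U : Set ℂ => ((h l : L2 μ) : X → ℂ) ⁻¹' U) ''
      (MeasurableSpace.countableGeneratingSet ℂ) with hF'
  have hmeas : ∀ l, Measurable ((h l : L2 μ) : X → ℂ) := fun l =>
    (Lp.stronglyMeasurable (h l)).measurable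
  have hF'm : ∀ A ∈ F', MeasurableSet A := by
    intro A hA
    obtain ⟨l, U, hU, rfl⟩ := mem_iUnion.mp hA
    exact hmeas l (MeasurableSpace.measurableSet_countableGeneratingSet hU)
  have hF'κ : #F' ≤ κ := by
    refine (Cardinal.mk_iUnion_le _).trans ?_
    have h1 : #(List F) ≤ κ := (Cardinal.mk_list_le_max _).trans (max_le hκ hFκ)
    have h2 : (⨆ l : List F, #((fun U : Set ℂ => ((h l : L2 μ) : X → ℂ) ⁻¹' U) ''
        (MeasurableSpace.countableGeneratingSet ℂ))) ≤ ℵ₀ := by
      refine ciSup_le' fun l => ?_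
      exact Cardinal.mk_le_aleph0_iff.mpr
        ((MeasurableSpace.countable_countableGeneratingSet.image _).to_subtype)
    calc #(List F) * _ ≤ κ * ℵ₀ := mul_le_mul' h1 h2
      _ ≤ κ * κ := mul_le_mul' le_rfl hκ
      _ = κ := Cardinal.mul_eq_self hκ
  have hm : MeasurableSpace.generateFrom F' ≤ m0 := MeasurableSpace.generateFrom_le hF'm
  have hmeas' : ∀ l, Measurable[(MeasurableSpace.generateFrom F')] ((h l : L2 μ) : X → ℂ) := by
    intro l
    have h1 : @Measurable X ℂ (MeasurableSpace.generateFrom F')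
        (MeasurableSpace.generateFrom (MeasurableSpace.countableGeneratingSet ℂ))
        ((h l : L2 μ) : X → ℂ) := by
      refine @measurable_generateFrom _ _ (MeasurableSpace.generateFrom F') _ _ fun U hU => ?_
      exact MeasurableSpace.measurableSet_generateFrom (mem_iUnion.mpr ⟨l, U, hU, rfl⟩)
    rwa [MeasurableSpace.generateFrom_countableGeneratingSet] at h1
  have hNow : NowhereGen (μ.restrict D) F' := hN F' hF'm hF'κ
  have hadj : ∀ (v : L2 μ) (l : List F),
      ∫ x in C ∩ EL l, ((ContinuousLinearMap.adjoint a v : L2 μ) : X → ℂ) x ∂μ = ⟪h l, v⟫_ℂ := by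
    intro v l
    rw [← inner_ind (hCE l) (hCEf l), ContinuousLinearMap.adjoint_inner_right]
  -- measurable subsets of `D`
  have hDS : ∀ S : Set X, MeasurableSet S → MeasurableSet (D ∩ S) := fun S hS => hD.inter hS
  have hDSf : ∀ S : Set X, μ (D ∩ S) ≠ ∞ := fun S =>
    ne_top_of_le_ne_top hDf (measure_mono inter_subset_left)
  have hinnerD : ∀ (S : Set X) (hS : MeasurableSet S) (l : List F),
      ⟪h l, indicatorConstLp 2 (hDS S hS) (hDSf S) (1 : ℂ)⟫_ℂ =
        (starRingEnd ℂ) (∫ x in S, ((h l : L2 μ) : X → ℂ) x ∂(μ.restrict D)) := by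
    intro S hS l
    rw [← inner_conj_symm, inner_ind, Measure.restrict_restrict hS, inter_comm]
  -- the key vanishing
  have key : ∀ (S : Set X) (hS : MeasurableSet[(MeasurableSpace.generateFrom F')] S),
      ∀ᵐ x ∂(μ.restrict C), ((ContinuousLinearMap.adjoint a
        (indicatorConstLp 2 (hDS S (hm S hS)) (hDSf S) (1 : ℂ)) : L2 μ) : X → ℂ) x = 0 := by
    intro S hS
    set e0 : L2 μ := indicatorConstLp 2 (hDS S (hm S hS)) (hDSf S) (1 : ℂ) with he0
    set φ : L2 μ := ContinuousLinearMap.adjoint a e0 with hφ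
    have hbound : ∀ t : ℝ, 0 < t → t < 1 →
        μ.restrict C {x | (φ : X → ℂ) x ≠ 0} ≤ c * (ENNReal.ofReal t * μ.restrict D S) := by
      intro t ht0 ht1
      obtain ⟨b, hb, hbt⟩ := Pool.Agent.R364.MS.stmtG X (μ.restrict D) F' hF'm hNow
        (fun _ => t) (@measurable_const _ _ _ (MeasurableSpace.generateFrom F') _) (fun _ => ht0.le) (fun _ => ht1.le)
      obtain ⟨hs1, hs2⟩ := scale hm (μ.restrict D) b hb t ht0.le hbt
      set e1 : L2 μ := indicatorConstLp 2 (hDS (S ∩ b) ((hm S hS).inter hb)) (hDSf (S ∩ b))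
        (1 : ℂ) with he1
      have hw : ∀ᵐ x ∂(μ.restrict C),
          ((ContinuousLinearMap.adjoint a (e1 - (t : ℂ) • e0) : L2 μ) : X → ℂ) x = 0 := by
        refine pl hC hCf hF hgen _ fun l => ?_
        rw [hadj, inner_sub_right, inner_smul_right, he1, he0,
          hinnerD (S ∩ b) ((hm S hS).inter hb) l, hinnerD S (hm S hS) l,
          hs2 _ (hmeas' l) S hS, map_mul, Complex.conj_ofReal, sub_self]
      have hw2 : ∀ᵐ x ∂(μ.restrict C), (φ : X → ℂ) x ≠ 0 →
          ((ContinuousLinearMap.adjoint a e1 : L2 μ) : X → ℂ) x ≠ 0 := by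
        have h1 : ContinuousLinearMap.adjoint a (e1 - (t : ℂ) • e0) =
            ContinuousLinearMap.adjoint a e1 - (t : ℂ) • φ := by
          rw [map_sub, map_smul]
        have h2 := ae_restrict_of_ae (s := C) (Lp.coeFn_sub (ContinuousLinearMap.adjoint a e1)
          ((t : ℂ) • φ))
        have h3 := ae_restrict_of_ae (s := C) (Lp.coeFn_smul (t : ℂ) φ)
        rw [h1] at hw
        filter_upwards [hw, h2, h3] with x hx1 hx2 hx3 hx4 hx5
        rw [hx2, Pi.sub_apply, hx3, Pi.smul_apply, hx5, zero_sub, neg_eq_zero,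
          smul_eq_zero] at hx1
        rcases hx1 with h6 | h6
        · exact ht0.ne' (by exact_mod_cast h6)
        · exact hx4 h6
      calc μ.restrict C {x | (φ : X → ℂ) x ≠ 0}
          ≤ μ.restrict C {x | ((ContinuousLinearMap.adjoint a e1 : L2 μ) : X → ℂ) x ≠ 0} :=
            measure_mono_ae hw2
        _ ≤ μ {x | ((ContinuousLinearMap.adjoint a e1 : L2 μ) : X → ℂ) x ≠ 0} :=
            Measure.restrict_apply_le _ _
        _ ≤ c * μ {x | (e1 : X → ℂ) x ≠ 0} := hex e1
        _ ≤ c * μ (D ∩ (S ∩ b)) := by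
            refine mul_le_mul_right (measure_mono_ae ?_) _
            filter_upwards [indicatorConstLp_coeFn (p := 2) (c := (1 : ℂ))
              (hs := hDS (S ∩ b) ((hm S hS).inter hb)) (hμs := hDSf (S ∩ b))] with x hx hx2
            by_contra hcon
            exact hx2 (hx.trans (indicator_of_notMem hcon _))
        _ = c * (ENNReal.ofReal t * μ.restrict D S) := by
            rw [← hs1 S hS, Measure.restrict_apply ((hm S hS).inter hb), inter_comm]
    have hzero : μ.restrict C {x | (φ : X → ℂ) x ≠ 0} = 0 := by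
      have hfinC := fin_restrict hCf
      by_contra hne
      set x0 := μ.restrict C {x | (φ : X → ℂ) x ≠ 0} with hx0
      have hx0f : x0 ≠ ∞ := measure_ne_top _ _
      set M : ℝ := (c : ℝ) * (μ.restrict D S).toReal with hM
      have hb : ∀ t : ℝ, 0 < t → t < 1 → x0.toReal ≤ t * M := by
        intro t ht0 ht1
        have h1 := ENNReal.toReal_mono (ENNReal.mul_ne_top ENNReal.coe_ne_top
          (ENNReal.mul_ne_top ENNReal.ofReal_ne_top (measure_ne_top _ _))) (hbound t ht0 ht1)
        rw [ENNReal.toReal_mul, ENNReal.toReal_mul, ENNReal.toReal_ofReal ht0.le,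
          ENNReal.coe_toReal] at h1
        rw [hM]
        linarith
      have hpos : 0 < x0.toReal := ENNReal.toReal_pos hne hx0f
      have hM0 : 0 ≤ M := by positivity
      have h2 := hb (min (1 / 2) (x0.toReal / (2 * (M + 1))))
        (lt_min (by norm_num) (by positivity))
        (lt_of_le_of_lt (min_le_left _ _) (by norm_num))
      have h3 : min (1 / 2) (x0.toReal / (2 * (M + 1))) * M ≤
          x0.toReal / (2 * (M + 1)) * (M + 1) :=
        mul_le_mul (min_le_right _ _) (by linarith) hM0 (by positivity)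
      have h4 : x0.toReal / (2 * (M + 1)) * (M + 1) = x0.toReal / 2 := by
        field_simp
      linarith
    rw [ae_iff]
    exact hzero
  -- the functions `h l` vanish on `D`
  have hhl : ∀ l, ∀ᵐ x ∂(μ.restrict D), ((h l : L2 μ) : X → ℂ) x = 0 := by
    intro l
    have hint := int_restrict hDf (h l)
    have h1 : (fun _ : X => (0 : ℂ)) =ᵐ[μ.restrict D] (μ.restrict D)[((h l : L2 μ) : X → ℂ) | MeasurableSpace.generateFrom F'] := by
      refine ae_eq_condExp_of_forall_setIntegral_eq hm hint
        (fun s _ _ => (integrable_zero _ _ _).integrableOn) ?_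
        (@stronglyMeasurable_const _ _ (MeasurableSpace.generateFrom F') _ _).aestronglyMeasurable
      intro S hS _
      have h2 : ⟪h l, indicatorConstLp 2 (hDS S (hm S hS)) (hDSf S) (1 : ℂ)⟫_ℂ = 0 := by
        rw [hh]
        simp only
        rw [← ContinuousLinearMap.adjoint_inner_right]
        refine orth hC ?_ (key S hS)
        filter_upwards [indicatorConstLp_coeFn (p := 2) (c := (1 : ℂ))
          (hs := hCE l) (hμs := hCEf l)] with x hx hxC
        rw [he]
        simp only
        rw [hx, indicator_of_notMem fun hx2 => hxC hx2.1]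
      rw [hinnerD S (hm S hS) l] at h2
      have h3 := (map_eq_zero (starRingEnd ℂ)).mp h2
      rw [h3]
      simp
    have h2 : (μ.restrict D)[((h l : L2 μ) : X → ℂ) | MeasurableSpace.generateFrom F'] = ((h l : L2 μ) : X → ℂ) :=
      condExp_of_stronglyMeasurable hm (hmeas' l).stronglyMeasurable hint
    rw [h2] at h1
    exact h1.mono fun x hx => hx.symm
  -- conclusion
  have hfin : ∀ᵐ x ∂(μ.restrict C),
      ((ContinuousLinearMap.adjoint a g : L2 μ) : X → ℂ) x = 0 := by
    refine pl hC hCf hF hgen _ fun l => ?_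
    rw [hadj, ← inner_conj_symm, orth hD hg (hhl l), map_zero]
  rw [← ContinuousLinearMap.adjoint_inner_left, ← inner_conj_symm, orth hC hf hfin, map_zero]

end Pool.Agent.R359.MT
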